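import Pool.Agent.H72.SF.VT

/-! CLc. Subcomplete forcing notions of the final model give good embeddings. -/

set_option autoImplicit false
set_option linter.unusedVariables false

open Ordinal Cardinal Order Set
open scoped ZFSet

namespace SF.H60

open SF

/-- the relations -/
private noncomputable def clR (A : BA) : Fin 4 → (ℕ → V) → Prop :=
  ![fun v => v 0 = w1,
    fun v => v 0 = gaf A,
    fun v => v 0 = A.B.sep fun b => b ≠ ∅ ∧ GoodQ A (v 1) (v 2) b,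
    fun v => BPre A.B (v 1) (v 2) → ∃ (C : BA) (k : BMor A C), TwoSt A (v 1) (v 2) C k ∧
      v 0 = ZFSet.pair C.B k.gr]

private theorem clR_fin (A : BA) (n : Fin 4) : FinSup (clR A n) := by
  refine ⟨3, fun v w h => ?_⟩
  have h0 := h 0 (by omega)
  have h1 := h 1 (by omega)
  have h2 := h 2 (by omega)
  fin_cases n
  · show v 0 = w1 ↔ w 0 = w1
    rw [h0]
  · show v 0 = gaf A ↔ w 0 = gaf A
    rw [h0]
  · show (v 0 = A.B.sep fun b => b ≠ ∅ ∧ GoodQ A (v 1) (v 2) b) ↔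
      (w 0 = A.B.sep fun b => b ≠ ∅ ∧ GoodQ A (w 1) (w 2) b)
    rw [h0, h1, h2]
  · show (BPre A.B (v 1) (v 2) → ∃ (C : BA) (k : BMor A C), TwoSt A (v 1) (v 2) C k ∧
      v 0 = ZFSet.pair C.B k.gr) ↔ (BPre A.B (w 1) (w 2) → ∃ (C : BA) (k : BMor A C),
        TwoSt A (w 1) (w 2) C k ∧ w 0 = ZFSet.pair C.B k.gr)
    rw [h0, h1, h2]

private theorem mem_pos' {B x : V} : x ∈ pos B ↔ x ∈ B ∧ x ≠ ∅ := by
  unfold pos
  simp

private theorem pair_mem_incl' {B x y : V} :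
    ZFSet.pair x y ∈ incl B ↔ x ∈ pos B ∧ y ∈ pos B ∧ x ⊆ y := by
  unfold incl
  rw [ZFSet.mem_sep, ZFSet.pair_mem_prod, fst_pair, snd_pair, and_assoc]

private theorem qR_sub {B mu ρ p q : V} (h : ZFSet.pair q p ∈ qR B mu ρ) :
    q ∈ qS B mu ∧ p ∈ qS B mu := by
  unfold qR at h
  rw [ZFSet.mem_sep, ZFSet.pair_mem_prod] at h
  exact h.1

/-- the algebra of the two-step forcing consists of the regular open sets -/
private theorem mem_two {A : BA} {mu ρ : V} {C : BA} {k : BMor A C} (h : TwoSt A mu ρ C k)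
    (O : V) : O ∈ C.B ↔ RegO (qS A.B mu) (qR A.B mu ρ) O := by
  rw [h.alg, mem_RO]
  constructor
  · rintro ⟨h1, h2, h3⟩
    refine ⟨h1, fun p hp q hq => h2 p hp q (qR_sub hq).1 hq, fun p hp hh => h3 p hp ?_⟩
    intro q _ hqp
    exact hh q hqp
  · rintro ⟨h1, h2, h3⟩
    refine ⟨h1, fun p hp q _ hq => h2 p hp q hq, fun p hp hh => h3 p hp ?_⟩
    intro q hqp
    exact hh q (qR_sub hqp).1 hqp

private theorem gr_two {A : BA} {mu ρ : V} {C : BA} {k : BMor A C} (h : TwoSt A mu ρ C k) :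
    k.gr = resS A.B fun b => kS A.B mu b := by
  ext z
  rw [mem_resS]
  unfold Mor.gr
  rw [ZFSet.mem_range]
  constructor
  · rintro ⟨x, rfl⟩
    refine ⟨x.val, x.mem, ?_⟩
    have h1 : (k.toMor x).val = kS A.B mu x.val := h.map x
    rw [h1]
  · rintro ⟨x, hx, rfl⟩
    refine ⟨⟨x, hx⟩, ?_⟩
    have h1 : (k.toMor ⟨x, hx⟩).val = kS A.B mu x := h.map ⟨x, hx⟩
    rw [h1]

private theorem dfb_tb1 (hYC : T_YC) : Dfb ZFm (fun M v =>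
    TBx M (v 1) (v 2) (v 3) (v 4) (v 5) (v 6) (v 0)) :=
  hYC.2.2.2.1.rn fun i => if i = 6 then 0 else i + 1

private theorem dfb_den (hYC : T_YC) : Dfb ZFm (fun M v => ∀ b0 ∈ v 0, b0 ≠ ∅ → b0 ⊆ v 1 →
    ∃ b ∈ v 0, (b ≠ ∅ ∧ b ⊆ b0) ∧ TBx M (v 2) (v 3) (v 0) (v 4) (v 5) (v 6) b) := by
  refine (Dfb.ball (R := fun M v => v 0 ≠ ∅ → v 0 ⊆ v 2 →
    ∃ b ∈ v 1, (b ≠ ∅ ∧ b ⊆ v 0) ∧ TBx M (v 3) (v 4) (v 1) (v 5) (v 6) (v 7) b) ktr_zfm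
    (Tm.var 0) ?_).congr fun _ _ _ _ => Iff.rfl
  refine (Dfb.eq (Tm.var 0) Tm.empty).not.imp ((Dfb.subset (Tm.var 0) (Tm.var 2)).imp ?_)
  refine (Dfb.bex (R := fun M v => (v 0 ≠ ∅ ∧ v 0 ⊆ v 1) ∧
    TBx M (v 4) (v 5) (v 2) (v 6) (v 7) (v 8) (v 0)) ktr_zfm (Tm.var 1) ?_).congr
    fun _ _ _ _ => Iff.rfl
  refine ((Dfb.eq (Tm.var 0) Tm.empty).not.and (Dfb.subset (Tm.var 0) (Tm.var 1))).and ?_
  exact hYC.2.2.2.1.rn fun i => if i = 0 then 4 else if i = 1 then 5 else if i = 2 then 2 else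
    if i = 6 then 0 else i + 3

private theorem tbx_ne {M : V → Prop} {W ga B C h p b : V} (H : TBx M W ga B C h p b) :
    b ≠ ∅ := by
  obtain ⟨N', _, N, _, σ, _, w, _, B', _, C', _, h', _, p', _, G', _, q, _, hT⟩ := H
  exact hT.fr.ne

/-- CLc -/
theorem clc (hYH : T_YH) (hYC : T_YC) (hWA : T_WA) (hWC : T_WC) (hWE : T_WE) (hWF : T_WF)
    (hWG : T_WG) (hQA : T_QA) (hQH : T_QH) (hVC : T_VC) (hVD : T_VD) (hVM : T_VM) (hFE : T_FE)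
    (hFI : T_FI) (hFK : T_FK) (hFL : T_FL) (hFS : T_FS) : T_CLc := by
  intro A hgood hne
  refine ⟨Fin 4, inferInstance, clR A, clR_fin A, ?_⟩
  intro M j hM hSk B hB hjB G hG mu hmu hmo ρ hρ hBP c r e hcW hrW heW hpo hon hrr hsc
  obtain ⟨kZ, hinj, -, -, -, hom⟩ := hWE M j hM
  have k : ZFm (· ∈ M) := kZ.toZFCm.toZFm
  have kA : ZFm Al := hWC.toZFCm.toZFm
  obtain ⟨hTR, hTF⟩ := hWA ZFm (· ∈ M) Al j hM.elem k kA
  have hc : CBAr (· ∈ M) B := by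
    refine (hTR _ hWF.2.1 (fun _ => B) (fun _ => hB)).2 ?_
    show CBAr Al (j B)
    rw [hjB]
    exact (hWG.1 A.B).1 A.cba
  have hne' : B ≠ {∅} := by
    intro h
    have h1 : j {∅} = {∅} := hTF _ (Tm.sing Tm.empty) (fun _ => B) (fun _ => hB)
    apply hne
    rw [← hjB, h, h1]
  have hpo' : IsPo (pos B) (incl B) := hWG.2.2.1 _ B hc hne'
  have hpM : pos B ∈ M := hWF.2.2.1.1 _ k (fun _ => B) (fun _ => hB)
  have hiM : incl B ∈ M := hWF.2.2.2.1.1 _ k (fun _ => B) (fun _ => hB)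
  have hBPA : BPre A.B (j mu) (j ρ) := by
    have h1 : BPre (j B) (j mu) (j ρ) :=
      (hTR _ hQH.2.2.1 (cons B (cons mu (fun _ => ρ)))
        (In.cons (In.cons (fun _ => hρ) hmu) hB)).1 hBP
    rwa [hjB] at h1
  -- the elements of `M` which are given by the Skolem functions
  obtain ⟨W0, hW0, hjW0⟩ : ∃ x ∈ M, j x = w1 := hSk 0 (fun _ => B) (fun _ => hB) ⟨w1, rfl⟩
  obtain ⟨ga, hga, hjga⟩ : ∃ x ∈ M, j x = gaf A :=
    hSk 1 (fun _ => B) (fun _ => hB) ⟨gaf A, rfl⟩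
  have hv : ∀ i, cons mu (fun _ => ρ) i ∈ M := In.cons (fun _ => hρ) hmu
  obtain ⟨S0, hS0, hjS0⟩ : ∃ x ∈ M, j x = A.B.sep fun b => b ≠ ∅ ∧ GoodQ A (j mu) (j ρ) b :=
    hSk 2 (cons mu (fun _ => ρ)) hv
      ⟨A.B.sep fun b => b ≠ ∅ ∧ GoodQ A (j mu) (j ρ) b, rfl⟩
  obtain ⟨CK, hCK, hjCK⟩ : ∃ x ∈ M, BPre A.B (j mu) (j ρ) → ∃ (C : BA) (k : BMor A C),
      TwoSt A (j mu) (j ρ) C k ∧ j x = ZFSet.pair C.B k.gr := by
    obtain ⟨C, k, hCk⟩ := (hQA.2 A (j mu) (j ρ) hne hBPA).1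
    exact hSk 3 (cons mu (fun _ => ρ)) hv ⟨ZFSet.pair C.B k.gr, fun _ => ⟨C, k, hCk, rfl⟩⟩
  obtain ⟨C, kk, htw, hjCK⟩ := hjCK hBPA
  obtain ⟨C0, k0, rfl⟩ : IsPr CK := by
    refine (hTR _ (Dfb.isPr (Tm.var 0)) (fun _ => CK) (fun _ => hCK)).2 ?_
    exact ⟨_, _, hjCK⟩
  obtain ⟨hC0, hk0⟩ : C0 ∈ M ∧ k0 ∈ M := k.of_pair hCK
  have hjp : j (ZFSet.pair C0 k0) = ZFSet.pair (j C0) (j k0) :=
    hTF _ (Tm.pair (Tm.var 0) (Tm.var 1)) (cons C0 (fun _ => k0))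
      (In.cons (fun _ => hk0) hC0)
  rw [hjp] at hjCK
  obtain ⟨hjC0, hjk0⟩ := ZFSet.pair_inj.1 hjCK
  -- the set of good conditions
  have hDM : ((pos B).sep fun b => b ∈ S0 ∨ ∀ b1 ∈ pos B, b1 ⊆ b → b1 ∉ S0) ∈ M := by
    refine (Tm.sep (R := fun _ v => v 0 ∈ v 1 ∨ ∀ b1 ∈ v 2, b1 ⊆ v 0 → b1 ∉ v 1)
      (f := fun _ v => v 1) ?_ (Tm.var 1)).1 _ k (cons S0 (fun _ => pos B))
      (In.cons (fun _ => hpM) hS0)
    refine (Dfb.mem (Tm.var 0) (Tm.var 1)).or ?_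
    exact (Dfb.ball (R := fun _ v => v 0 ⊆ v 1 → v 0 ∉ v 2) ktr_zfm (Tm.var 2)
      ((Dfb.subset (Tm.var 0) (Tm.var 1)).imp (Dfb.mem (Tm.var 0) (Tm.var 2)).not)).congr
      fun _ _ _ _ => Iff.rfl
  obtain ⟨b2, hb2G, hb2D⟩ := hG.2 _ hDM (by
    refine ⟨fun x hx => (ZFSet.mem_sep.1 hx).1, fun p hp => ?_⟩
    by_cases h : ∃ b1 ∈ pos B, b1 ⊆ p ∧ b1 ∈ S0
    · obtain ⟨b1, h1, h2, h3⟩ := h
      exact ⟨b1, ZFSet.mem_sep.2 ⟨h1, Or.inl h3⟩, pair_mem_incl'.2 ⟨h1, hp, h2⟩⟩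
    · refine ⟨p, ZFSet.mem_sep.2 ⟨hp, Or.inr fun b1 h1 h2 h3 => h ⟨b1, h1, h2, h3⟩⟩,
        pair_mem_incl'.2 ⟨hp, hp, fun _ h => h⟩⟩)
  obtain ⟨hb2P, hb2D⟩ := ZFSet.mem_sep.1 hb2D
  have hb2B : b2 ∈ B := (mem_pos'.1 hb2P).1
  have hb2M : b2 ∈ M := k.trans _ hB _ hb2B
  have hjb2 : j b2 ∈ A.B := by
    rw [← hjB]
    exact (hinj b2 hb2M B hB).2.2 hb2B
  rcases hb2D with hb2S | hb2N
  · refine ⟨b2, hb2G, ?_⟩
    have h1 : j b2 ∈ j S0 := (hinj b2 hb2M S0 hS0).2.2 hb2S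
    rw [hjS0] at h1
    exact (ZFSet.mem_sep.1 h1).2.2
  exfalso
  -- no good conditions below `b2`
  have hnoS : ∀ b1 ∈ A.B, b1 ≠ ∅ → b1 ⊆ j b2 → b1 ∉ j S0 := by
    have hR : Dfb ZFm (fun _ v => ∀ b1 ∈ v 0, b1 ≠ ∅ → b1 ⊆ v 1 → b1 ∉ v 2) :=
      (Dfb.ball (R := fun _ v => v 0 ≠ ∅ → v 0 ⊆ v 2 → v 0 ∉ v 3) ktr_zfm (Tm.var 0)
        ((Dfb.eq (Tm.var 0) Tm.empty).not.imp ((Dfb.subset (Tm.var 0) (Tm.var 2)).imp
          (Dfb.mem (Tm.var 0) (Tm.var 3)).not))).congr fun _ _ _ _ => Iff.rfl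
    have h1 : ∀ b1 ∈ j B, b1 ≠ ∅ → b1 ⊆ j b2 → b1 ∉ j S0 :=
      (hTR _ hR (cons B (cons b2 (fun _ => S0)))
        (In.cons (In.cons (fun _ => hS0) hb2M) hB)).1
        fun b1 h1 h2 h3 => hb2N b1 (mem_pos'.2 ⟨h1, h2⟩) h3
    rwa [hjB] at h1
  have hbad : ∀ b1 ≤ mkEl A.B (j b2), b1 ≠ ⊥ → ¬ Good (kk.res (kk b1)) := by
    intro b1 h1 h2 h3
    have hval : (mkEl A.B (j b2)).val = j b2 := by
      unfold mkEl
      rw [dif_pos hjb2]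
    have h4 : b1.val ≠ ∅ := by
      intro h
      apply h2
      apply El.ext
      rw [h, El.bot_val]
    have h5 : mkEl A.B b1.val = b1 := by
      unfold mkEl
      rw [dif_pos b1.mem]
    refine hnoS b1.val b1.mem h4 (by rw [← hval]; exact El.le_iff.1 h1) ?_
    rw [hjS0]
    refine ZFSet.mem_sep.2 ⟨b1.mem, h4, C, kk, htw, ?_⟩
    rw [h5]
    exact h3
  -- the small models
  have kW : ZFC (Ext (· ∈ M) G) := hFK _ (pos B) (incl B) G kZ hpM hiM hpo' hG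
  have kWm : ZFm (Ext (· ∈ M) G) := kW.toZFCm.toZFm
  obtain ⟨θ0, hθ0, hsub⟩ := hsc
  obtain ⟨θ, hθ, hcard, hinh⟩ := hVC _ kW θ0 hθ0 (ZFSet.pair c r) (kWm.mpair hcW hrW)
  obtain ⟨h, hhW, hhH⟩ := hVD _ kW θ hcard
  obtain ⟨cn, hcn, hvcn⟩ := id hcW
  obtain ⟨rn, hrn, hvrn⟩ := id hrW
  obtain ⟨en, hen, hven⟩ := id heW
  obtain ⟨hn, hhn, hvhn⟩ := hhW
  have hθM : θ.toZFSet ∈ M := hFL.2.2 (· ∈ M) G θ k hcard.2.1
  have hRegT : Dfb ZFm (fun _ v => RegO (qS (v 0) (v 1)) (qR (v 0) (v 1) (v 2)) (v 3)) :=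
    Dfb.at3 (P := fun _ x y z => RegO x y z) hFS.1 hQH.1 hQH.2.1 (Tm.var 3)
  have hCmem : ∀ O ∈ M, O ∈ C0 ↔ RegO (qS B mu) (qR B mu ρ) O := by
    intro O hO
    have h1 : RegO (qS B mu) (qR B mu ρ) O ↔
        RegO (qS (j B) (j mu)) (qR (j B) (j mu) (j ρ)) (j O) :=
      hTR _ hRegT (cons B (cons mu (cons ρ (fun _ => O))))
        (In.cons (In.cons (In.cons (fun _ => hO) hρ) hmu) hB)
    rw [h1, hjB, ← mem_two htw, ← hjC0]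
    exact ((hinj O hO C0 hC0).2).symm
  have hjk : ∀ b ∈ M, j (kS B mu b) = kS A.B (j mu) (j b) := by
    intro b hb
    have h1 : j (kS B mu b) = kS (j B) (j mu) (j b) :=
      hTF _ hQH.2.2.2.1 (cons B (cons mu (fun _ => b))) (In.cons (In.cons (fun _ => hb) hmu) hB)
    rw [h1, hjB]
  have hkM : ∀ b ∈ M, kS B mu b ∈ M := fun b hb =>
    hQH.2.2.2.1.1 _ k (cons B (cons mu (fun _ => b))) (In.cons (In.cons (fun _ => hb) hmu) hB)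
  have hkT : Tm ZFm (fun _ v => resS (v 0) fun b => kS (v 0) (v 1) b) :=
    Tm.resS (f := fun _ v => v 0) (g := fun _ v => kS (v 1) (v 2) (v 0)) (Tm.var 0)
      (Tm.at3 (F := fun _ x y z => kS x y z) hQH.2.2.2.1 (Tm.var 1) (Tm.var 2) (Tm.var 0))
  have hk0e : k0 = resS B fun b => kS B mu b := by
    have h1 : (resS B fun b => kS B mu b) ∈ M :=
      hkT.1 _ k (cons B (fun _ => mu)) (In.cons (fun _ => hmu) hB)
    have h2 : j (resS B fun b => kS B mu b) = resS (j B) fun b => kS (j B) (j mu) b :=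
      hTF _ hkT (cons B (fun _ => mu)) (In.cons (fun _ => hmu) hB)
    refine (hinj k0 hk0 _ h1).1.1 ?_
    rw [h2, hjB, hjk0, gr_two htw]
  have hkC : ∀ b ∈ B, kS B mu b ∈ C0 := by
    intro b hb
    have hbM : b ∈ M := k.trans _ hB _ hb
    have hjb : j b ∈ A.B := by
      rw [← hjB]
      exact (hinj b hbM B hB).2.2 hb
    refine (hinj _ (hkM b hbM) C0 hC0).2.1 ?_
    rw [hjk b hbM, hjC0]
    have h1 : (kk ⟨j b, hjb⟩).val = kS A.B (j mu) (j b) := htw.map ⟨j b, hjb⟩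
    rw [← h1]
    exact (kk ⟨j b, hjb⟩).mem
  have hcC : CBAr (· ∈ M) C0 := by
    refine (hTR _ hWF.2.1 (fun _ => C0) (fun _ => hC0)).2 ?_
    show CBAr Al (j C0)
    rw [hjC0]
    exact (hWG.1 C.B).1 C.cba
  let S : BigS :=
    { M := M, B := B, G := G, mu := mu, ρ := ρ, C := C0, k := k0, c := c, r := r, e := e, θ := θ
      zfc := kZ, ctb := hM.ctb, mB := hB, cba := hc, ne := hne', gen := hG, mmu := hmu
      ord := hmo, mρ := hρ, pre := hBP, mC := hC0, hC := hCmem, mkk := hk0, hk := hk0e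
      kC := hkC, wc := hcW, wr := hrW, we := heW, po := hpo, onto := hon, eq := hrr
      card := hcard, inh := hinh, sub := hsub θ hθ hcard hinh }
  have hno := hVM S hcC cn hcn rn hrn en hen hn hhn hvcn.symm hvrn.symm hven.symm
    (fun x hx => by rw [← hvhn]; exact hhH x hx) W0 hW0 ga hga
  have hno' : ∀ b ∈ G, ¬ TBx (· ∈ M) W0 ga B C0 k0
      (tupV B mu ρ C0 k0 cn rn en θ.toZFSet hn) b := hno
  have hPM : tupV B mu ρ C0 k0 cn rn en θ.toZFSet hn ∈ M := by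
    unfold tupV
    exact k.mpair hB (k.mpair hmu (k.mpair hρ (k.mpair hC0 (k.mpair hk0 (k.mpair hcn
      (k.mpair hrn (k.mpair hen (k.mpair hθM hhn))))))))
  generalize tupV B mu ρ C0 k0 cn rn en θ.toZFSet hn = P at hno' hPM
  -- the set of the bases of totally bad frames is dense
  have hD2 : ((pos B).sep fun b => TBx (· ∈ M) W0 ga B C0 k0 P b) ∈ M :=
    (Tm.sep (dfb_tb1 hYC) (f := fun _ v => v 6) (Tm.var 6)).1 (· ∈ M) k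
      (cons W0 (cons ga (cons B (cons C0 (cons k0 (cons P (fun _ => pos B)))))))
      (In.cons (In.cons (In.cons (In.cons (In.cons (In.cons (fun _ => hpM) hPM) hk0) hC0) hB)
        hga) hW0)
  have hden : ∀ b0 ∈ B, b0 ≠ ∅ → b0 ⊆ b2 →
      ∃ b ∈ B, (b ≠ ∅ ∧ b ⊆ b0) ∧ TBx (· ∈ M) W0 ga B C0 k0 P b := by
    refine (hTR _ (dfb_den hYC) (cons B (cons b2 (cons W0 (cons ga (cons C0 (cons k0
      (fun _ => P))))))) (In.cons (In.cons (In.cons (In.cons (In.cons (In.cons (fun _ => hPM)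
        hk0) hC0) hga) hW0) hb2M) hB)).2 ?_
    show ∀ b0 ∈ j B, b0 ≠ ∅ → b0 ⊆ j b2 →
      ∃ b ∈ j B, (b ≠ ∅ ∧ b ⊆ b0) ∧ TBx Al (j W0) (j ga) (j B) (j C0) (j k0) (j P) b
    rw [hjB, hjW0, hjga, hjC0, hjk0]
    intro b0 h1 h2 h3
    have hval : (mkEl A.B (j b2)).val = j b2 := by
      unfold mkEl
      rw [dif_pos hjb2]
    obtain ⟨b, hb, hT⟩ := hYH A C kk (mkEl A.B (j b2)) hbad (j P) ⟨b0, h1⟩
      (El.le_iff.2 (by rw [hval]; exact h3)) (by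
        intro h
        apply h2
        have h4 : (⟨b0, h1⟩ : El A.B).val = (⊥ : El A.B).val := by rw [h]
        rwa [El.bot_val] at h4)
    exact ⟨b.val, b.mem, ⟨tbx_ne hT, El.le_iff.1 hb⟩, hT⟩
  obtain ⟨d, hdG, hdD, -⟩ := hFE (· ∈ M) (pos B) (incl B) G _ b2 k hpM hiM hpo' hG hD2 hb2G (by
    intro q hq
    obtain ⟨hq1, hq2, hq3⟩ := pair_mem_incl'.1 hq
    obtain ⟨hqB, hq0⟩ := mem_pos'.1 hq1
    obtain ⟨b, hbB, ⟨hb0, hbq⟩, hT⟩ := hden q hqB hq0 hq3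
    have h1 : b ∈ pos B := mem_pos'.2 ⟨hbB, hb0⟩
    exact ⟨b, ZFSet.mem_sep.2 ⟨h1, hT⟩, pair_mem_incl'.2 ⟨h1, hq1, hbq⟩⟩)
  exact hno' d hdG (ZFSet.mem_sep.1 hdD).2

end SF.H60
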