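import Pool.Agent.H77.SF.KT2

/-! KZB. The preimage of the algebra of the category forcing. -/

set_option autoImplicit false
set_option linter.unusedVariables false

open Ordinal Cardinal Order Set
open scoped ZFSet

namespace SF.H60

open SF

private theorem kp_zfm : ∀ M : V → Prop, KPw M → ZFm M := fun _ h => h.1

private theorem mem_gr' {B C : V} [IsCBA B] [IsCBA C] (h : Mor B C) (q : V) :
    q ∈ h.gr ↔ ∃ x : El B, ZFSet.pair x.val (h x).val = q := by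
  unfold Mor.gr
  rw [ZFSet.mem_range]

/-- KZB -/
theorem kzb (hKRO : T_KRO) (hKO : T_KO) (hKN : T_KN) (hKS : T_KS) (hKV : T_KV) (hKM : T_KM)
    (hUC : T_UC) (hUO : T_UO) (hUV : T_UV) (hMB : T_MB) : T_KZB := by
  intro κ' κ lam' lam j hS hU hUj hL hLj Z i Z' i' hCU hCU'
  have hin' : Inac κ'.ord := hKV κ' hS.inac'
  have hin : Inac κ.ord := hKV κ hS.inac
  have hZ' : Z'.B = roS (UU κ'.ord) (UL κ'.ord) := hCU'.alg.trans (hKRO.2.2 κ'.ord).1
  have hZ : Z.B = roS (UU κ.ord) (UL κ.ord) := hCU.alg.trans (hKRO.2.2 κ.ord).1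
  have hro := hKO κ' κ lam' lam j hS (fun v => roS (v 0) (v 1)) hKRO.1
    (cons (UU κ'.ord) (fun _ => UL κ'.ord)) (In.cons (M := (· ∈ V_ lam')) (fun _ => hL) hU)
  have hZm : Z'.B ∈ V_ lam' := by
    rw [hZ']
    exact hro.1
  have hZj : app j Z'.B = Z.B := by
    rw [hZ', hZ]
    refine hro.2.trans ?_
    show roS (app j (UU κ'.ord)) (app j (UL κ'.ord)) = _
    rw [hUj, hLj]
  have htr : (V_ lam').IsTransitive := ZFSet.isTransitive_vonNeumann lam'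
  have hle : ∀ x ∈ V_ κ'.ord, x ∈ V_ lam' := by
    intro x hx
    rw [ZFSet.mem_vonNeumann] at hx ⊢
    exact hx.trans hS.lt'
  have hB0' : B0 ∈ V_ κ'.ord := (hUV κ'.ord hin').2.2.2.2.2.1
  have hB0 : B0 ∈ V_ lam' := hle _ hB0'
  have hB0j : app j B0 = B0 := hS.fix _ hB0'
  -- the graph
  have hgrm : Z'.g.gr ∈ V_ lam' := by
    have h1 : ZFSet.prod B0 Z'.B ∈ V_ lam' :=
      (hKO κ' κ lam' lam j hS (fun v => ZFSet.prod (v 0) (v 1))
        ((Tm.prod (Tm.var 0) (Tm.var 1)).mono kp_zfm) (cons B0 (fun _ => Z'.B))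
        (In.cons (M := (· ∈ V_ lam')) (fun _ => hZm) hB0)).1
    refine ZFSet.mem_vonNeumann_of_subset ?_ h1
    intro z hz
    obtain ⟨x, rfl⟩ := (mem_gr' _ _).1 hz
    exact ZFSet.pair_mem_prod.2 ⟨x.mem, (Z'.g x).mem⟩
  have hmor : IsMorS B0 Z.B (app j Z'.g.gr) := by
    have h1 : IsMorS (app j B0) (app j Z'.B) (app j Z'.g.gr) :=
      (hKN κ' κ lam' lam j hS (fun v => IsMorS (v 0) (v 1) (v 2)) hKS
        (cons B0 (cons Z'.B (fun _ => Z'.g.gr)))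
        (In.cons (M := (· ∈ V_ lam')) (In.cons (fun _ => hgrm) hZm) hB0)).1
        (show IsMorS B0 Z'.B Z'.g.gr from ⟨inferInstance, inferInstance, Z'.g, rfl⟩)
    rwa [hB0j, hZj] at h1
  obtain ⟨_, _, m, hm⟩ := hmor
  obtain ⟨htop, v0, hv0, hα, -⟩ := hUO
  have hv0' : v0.code ∈ V_ κ'.ord := (((hUC κ'.ord Z' i' hin' hCU').2.2.2.2.2.2.2.2) v0 hv0 hα).1
  have hv0k : v0.code ∈ V_ κ.ord := (((hUC κ.ord Z i hin hCU).2.2.2.2.2.2.2.2) v0 hv0 hα).1
  have key : ∀ x : El B0, m x = Z.g x := by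
    intro x
    by_cases hx : x = ⊥
    · subst hx
      rw [(hMB B0 Z.B m).2.1, (hMB B0 Z.B Z.g).2.1]
    have hxB : x.val ∈ v0.A.B := by
      rw [hv0]
      exact x.mem
    have hne : (⟨x.val, hxB⟩ : El v0.A.B) ≠ ⊥ := by
      intro h
      apply hx
      have h2 : (⟨x.val, hxB⟩ : El v0.A.B).val = (⊥ : El v0.A.B).val := by rw [h]
      rw [El.bot_val] at h2
      apply El.ext
      rw [El.bot_val]
      exact h2
    let c : Cd := ⟨v0, ⟨x.val, hxB⟩, hne⟩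
    have hc' : c.code ∈ V_ κ'.ord := ((hUV κ'.ord hin').2.2.2.2.2.2.2.2.2.1 c).2 hv0'
    have hck : c.code ∈ V_ κ.ord := ((hUV κ.ord hin).2.2.2.2.2.2.2.2.2.1 c).2 hv0k
    have hcU' : c.code ∈ UU κ'.ord := ZFSet.mem_sep.2 ⟨hc', c, rfl⟩
    have hcU : c.code ∈ UU κ.ord := ZFSet.mem_sep.2 ⟨hck, c, rfl⟩
    have e' : (Z'.g x).val = clS (UU κ'.ord) (UL κ'.ord) c.code := by
      rw [hCU'.base c hv0 hα x rfl, hCU'.val c hc', ((hKRO.2.2 κ'.ord).2 c.code hcU')]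
    have e : (Z.g x).val = clS (UU κ.ord) (UL κ.ord) c.code := by
      rw [hCU.base c hv0 hα x rfl, hCU.val c hck, ((hKRO.2.2 κ.ord).2 c.code hcU)]
    have hxm' : x.val ∈ V_ κ'.ord := ZFSet.isTransitive_vonNeumann κ'.ord _ hB0' x.mem
    have hgm : (Z'.g x).val ∈ V_ lam' := htr _ hZm (Z'.g x).mem
    have hcl : app j (Z'.g x).val = (Z.g x).val := by
      rw [e', e]
      have h1 := (hKO κ' κ lam' lam j hS (fun v => clS (v 0) (v 1) (v 2)) hKRO.2.1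
        (cons (UU κ'.ord) (cons (UL κ'.ord) (fun _ => c.code)))
        (In.cons (M := (· ∈ V_ lam')) (In.cons (fun _ => hle _ hc') hL) hU)).2
      refine h1.trans ?_
      show clS (app j (UU κ'.ord)) (app j (UL κ'.ord)) (app j c.code) = _
      rw [hUj, hLj, hS.fix _ hc']
    have hp : ZFSet.pair (app j x.val) (app j (Z'.g x).val) ∈ app j Z'.g.gr := by
      refine (hKN κ' κ lam' lam j hS (fun v => ZFSet.pair (v 0) (v 1) ∈ v 2)
        ((Dfb.pairMem (Tm.var 0) (Tm.var 1) (Tm.var 2)).mono kp_zfm)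
        (cons x.val (cons (Z'.g x).val (fun _ => Z'.g.gr)))
        (In.cons (M := (· ∈ V_ lam')) (In.cons (fun _ => hgrm) hgm) (hle _ hxm'))).1 ?_
      exact (mem_gr' _ _).2 ⟨x, rfl⟩
    rw [hcl, hS.fix _ hxm', ← hm] at hp
    obtain ⟨y, hy⟩ := (mem_gr' _ _).1 hp
    obtain ⟨h1, h2⟩ := ZFSet.pair_inj.1 hy
    have h3 : y = x := El.ext h1
    subst h3
    exact El.ext h2
  refine ⟨hZm, hZj, hgrm, ?_, ?_⟩
  · rw [← hm]
    ext z
    rw [mem_gr', mem_gr']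
    refine exists_congr fun x => ?_
    rw [key x]
  · intro x hx z hz
    rw [hCU'.alg] at hx
    exact (ZFSet.mem_sep.1 ((mem_RO.1 hx).1 hz)).1

end SF.H60
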