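import Pool.Agent.H9.SF.QDefs
import Pool.Agent.H9.SF.WD2

/-! W3. The forcing axiom in the final model. -/

set_option autoImplicit false
set_option linter.unusedVariables false

open Ordinal Cardinal Order Set
open scoped ZFSet

namespace SF.H60

open SF

theorem dfb_sup : Dfb ZFm (fun _ v => ∀ n ∈ v 4, ∀ x ∈ v 5, x ≠ ∅ → x ⊆ v 3 →
    ∃ ξ ∈ v 6, x ∩ app (v 2) (ZFSet.pair n ξ) ≠ ∅) := by
  refine (Dfb.ball (R := fun _ v => ∀ x ∈ v 6, x ≠ ∅ → x ⊆ v 4 →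
    ∃ ξ ∈ v 7, x ∩ app (v 3) (ZFSet.pair (v 0) ξ) ≠ ∅) ktr_zfm (Tm.var 4) ?_).congr
    fun _ _ _ _ => Iff.rfl
  refine (Dfb.ball (R := fun _ v => v 0 ≠ ∅ → v 0 ⊆ v 5 →
    ∃ ξ ∈ v 8, v 0 ∩ app (v 4) (ZFSet.pair (v 1) ξ) ≠ ∅) ktr_zfm (Tm.var 6) ?_).congr
    fun _ _ _ _ => Iff.rfl
  refine (Dfb.eq (Tm.var 0) Tm.empty).not.imp ((Dfb.subset (Tm.var 0) (Tm.var 5)).imp ?_)
  refine (Dfb.bex (R := fun _ v => v 1 ∩ app (v 5) (ZFSet.pair (v 2) (v 0)) ≠ ∅) ktr_zfm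
    (Tm.var 8) ?_).congr fun _ _ _ _ => Iff.rfl
  exact (Dfb.eq (Tm.inter (Tm.var 1) (Tm.app (Tm.var 5) (Tm.pair (Tm.var 2) (Tm.var 0))))
    Tm.empty).not

theorem dfb_dis : Dfb ZFm (fun _ v => ∀ n ∈ v 4, ∀ ξ ∈ v 6, ∀ η ∈ v 6, ξ ≠ η →
    app (v 2) (ZFSet.pair n ξ) ∩ app (v 2) (ZFSet.pair n η) = ∅) := by
  refine (Dfb.ball (R := fun _ v => ∀ ξ ∈ v 7, ∀ η ∈ v 7, ξ ≠ η →
    app (v 3) (ZFSet.pair (v 0) ξ) ∩ app (v 3) (ZFSet.pair (v 0) η) = ∅) ktr_zfm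
    (Tm.var 4) ?_).congr fun _ _ _ _ => Iff.rfl
  refine (Dfb.ball (R := fun _ v => ∀ η ∈ v 8, v 0 ≠ η →
    app (v 4) (ZFSet.pair (v 1) (v 0)) ∩ app (v 4) (ZFSet.pair (v 1) η) = ∅) ktr_zfm
    (Tm.var 7) ?_).congr fun _ _ _ _ => Iff.rfl
  refine (Dfb.ball (R := fun _ v => v 1 ≠ v 0 →
    app (v 5) (ZFSet.pair (v 2) (v 1)) ∩ app (v 5) (ZFSet.pair (v 2) (v 0)) = ∅) ktr_zfm
    (Tm.var 8) ?_).congr fun _ _ _ _ => Iff.rfl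
  exact (Dfb.eq (Tm.var 1) (Tm.var 0)).not.imp (Dfb.eq (Tm.inter
    (Tm.app (Tm.var 5) (Tm.pair (Tm.var 2) (Tm.var 1)))
    (Tm.app (Tm.var 5) (Tm.pair (Tm.var 2) (Tm.var 0)))) Tm.empty)

theorem dfb_mts : Dfb ZFm (fun _ v => ∀ i ∈ v 4, ∀ ξ ∈ v 6,
    app (v 2) (ZFSet.pair (app (v 1) i) ξ) ⊆ app (v 8) (ZFSet.pair i ξ)) := by
  refine (Dfb.ball (R := fun _ v => ∀ ξ ∈ v 7,
    app (v 3) (ZFSet.pair (app (v 2) (v 0)) ξ) ⊆ app (v 9) (ZFSet.pair (v 0) ξ)) ktr_zfm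
    (Tm.var 4) ?_).congr fun _ _ _ _ => Iff.rfl
  refine (Dfb.ball (R := fun _ v =>
    app (v 4) (ZFSet.pair (app (v 3) (v 1)) (v 0)) ⊆ app (v 10) (ZFSet.pair (v 1) (v 0))) ktr_zfm
    (Tm.var 7) ?_).congr fun _ _ _ _ => Iff.rfl
  exact Dfb.subset (Tm.app (Tm.var 4) (Tm.pair (Tm.app (Tm.var 3) (Tm.var 1)) (Tm.var 0)))
    (Tm.app (Tm.var 10) (Tm.pair (Tm.var 1) (Tm.var 0)))

theorem dfb_dir : Dfb ZFm (fun _ v => ∀ n ∈ v 4, ∀ l ∈ v 4, ∀ ζ ∈ v 6, ∀ ξ ∈ v 6,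
    app (v 2) (ZFSet.pair (app (v 0) (ZFSet.pair n l)) ζ) ∩ app (v 2) (ZFSet.pair n ξ) ⊆
        app (v 7) (ZFSet.pair ζ ξ) ∧
      app (v 2) (ZFSet.pair (app (v 0) (ZFSet.pair n l)) ζ) ∩ app (v 2) (ZFSet.pair l ξ) ⊆
        app (v 7) (ZFSet.pair ζ ξ)) := by
  refine (Dfb.ball (R := fun _ v => ∀ l ∈ v 5, ∀ ζ ∈ v 7, ∀ ξ ∈ v 7,
    app (v 3) (ZFSet.pair (app (v 1) (ZFSet.pair (v 0) l)) ζ) ∩
        app (v 3) (ZFSet.pair (v 0) ξ) ⊆ app (v 8) (ZFSet.pair ζ ξ) ∧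
      app (v 3) (ZFSet.pair (app (v 1) (ZFSet.pair (v 0) l)) ζ) ∩ app (v 3) (ZFSet.pair l ξ) ⊆
        app (v 8) (ZFSet.pair ζ ξ)) ktr_zfm (Tm.var 4) ?_).congr fun _ _ _ _ => Iff.rfl
  refine (Dfb.ball (R := fun _ v => ∀ ζ ∈ v 8, ∀ ξ ∈ v 8,
    app (v 4) (ZFSet.pair (app (v 2) (ZFSet.pair (v 1) (v 0))) ζ) ∩
        app (v 4) (ZFSet.pair (v 1) ξ) ⊆ app (v 9) (ZFSet.pair ζ ξ) ∧
      app (v 4) (ZFSet.pair (app (v 2) (ZFSet.pair (v 1) (v 0))) ζ) ∩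
        app (v 4) (ZFSet.pair (v 0) ξ) ⊆ app (v 9) (ZFSet.pair ζ ξ)) ktr_zfm (Tm.var 5)
    ?_).congr fun _ _ _ _ => Iff.rfl
  refine (Dfb.ball (R := fun _ v => ∀ ξ ∈ v 9,
    app (v 5) (ZFSet.pair (app (v 3) (ZFSet.pair (v 2) (v 1))) (v 0)) ∩
        app (v 5) (ZFSet.pair (v 2) ξ) ⊆ app (v 10) (ZFSet.pair (v 0) ξ) ∧
      app (v 5) (ZFSet.pair (app (v 3) (ZFSet.pair (v 2) (v 1))) (v 0)) ∩
        app (v 5) (ZFSet.pair (v 1) ξ) ⊆ app (v 10) (ZFSet.pair (v 0) ξ)) ktr_zfm (Tm.var 8)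
    ?_).congr fun _ _ _ _ => Iff.rfl
  refine (Dfb.ball (R := fun _ v =>
    app (v 6) (ZFSet.pair (app (v 4) (ZFSet.pair (v 3) (v 2))) (v 1)) ∩
        app (v 6) (ZFSet.pair (v 3) (v 0)) ⊆ app (v 11) (ZFSet.pair (v 1) (v 0)) ∧
      app (v 6) (ZFSet.pair (app (v 4) (ZFSet.pair (v 3) (v 2))) (v 1)) ∩
        app (v 6) (ZFSet.pair (v 2) (v 0)) ⊆ app (v 11) (ZFSet.pair (v 1) (v 0))) ktr_zfm
    (Tm.var 9) ?_).congr fun _ _ _ _ => Iff.rfl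
  have hA : Tm ZFm (fun _ v => app (v 6) (ZFSet.pair (app (v 4) (ZFSet.pair (v 3) (v 2))) (v 1))) :=
    Tm.app (Tm.var 6) (Tm.pair (Tm.app (Tm.var 4) (Tm.pair (Tm.var 3) (Tm.var 2))) (Tm.var 1))
  have hr : Tm ZFm (fun _ v => app (v 11) (ZFSet.pair (v 1) (v 0))) :=
    Tm.app (Tm.var 11) (Tm.pair (Tm.var 1) (Tm.var 0))
  exact (Dfb.subset (Tm.inter hA (Tm.app (Tm.var 6) (Tm.pair (Tm.var 3) (Tm.var 0)))) hr).and
    (Dfb.subset (Tm.inter hA (Tm.app (Tm.var 6) (Tm.pair (Tm.var 2) (Tm.var 0)))) hr)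

/-- arguments: `p, m, s, b2, o, B, mu, ρ, d` -/
theorem dfb_dirS : Dfb ZFm (fun _ v =>
    DirS (v 4) (v 5) (v 6) (v 7) (v 8) (v 3) (v 2) (v 1) (v 0)) := by
  have h1 : Dfb ZFm (fun _ v => ZFSet.IsFunc (ZFSet.prod (v 4) (v 6)) (v 5) (v 2)) :=
    Dfb.isFunc (Tm.prod (Tm.var 4) (Tm.var 6)) (Tm.var 5) (Tm.var 2)
  have h2 : Dfb ZFm (fun _ v => ZFSet.IsFunc (v 4) (v 4) (v 1)) :=
    Dfb.isFunc (Tm.var 4) (Tm.var 4) (Tm.var 1)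
  have h3 : Dfb ZFm (fun _ v => ZFSet.IsFunc (ZFSet.prod (v 4) (v 4)) (v 4) (v 0)) :=
    Dfb.isFunc (Tm.prod (Tm.var 4) (Tm.var 4)) (Tm.var 4) (Tm.var 0)
  refine (h1.and (h2.and (h3.and (dfb_sup.and (dfb_dis.and (dfb_mts.and dfb_dir)))))).congr ?_
  intro M k v hv
  constructor
  · rintro ⟨a1, a2, a3, a4, a5, a6, a7⟩
    exact ⟨a1, a2, a3, a4, a5, a6, a7⟩
  · rintro ⟨a1, a2, a3, a4, a5, a6, a7⟩
    exact ⟨a1, a2, a3, a4, a5, a6, a7⟩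

theorem mem_pos {B x : V} : x ∈ pos B ↔ x ∈ B ∧ x ≠ ∅ := by
  unfold pos
  simp

theorem pair_mem_incl {B x y : V} : ZFSet.pair x y ∈ incl B ↔ x ∈ pos B ∧ y ∈ pos B ∧ x ⊆ y := by
  unfold incl
  rw [ZFSet.mem_sep, ZFSet.pair_mem_prod, fst_pair, snd_pair, and_assoc]

/-- assignments -/
theorem in_const {M : V → Prop} {x : V} (h : M x) : In M (fun _ => x) := fun _ => h

section

variable {M : V → Prop} {B G o mu ρ d b2 s m p : V}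

/-- for each `n` some `s (n, ξ)` is in the filter -/
theorem exists_xi (hFE : T_FE) (hWH : T_WH) (hWF : T_WF) (k : ZFm M) (hB : M B)
    (hc : CBAr M B) (hpo : IsPo (pos B) (incl B)) (hG : Gen M (pos B) (incl B) G)
    (hmu : M mu) (hs : M s) (ho : M o) (hD : DirS o B mu ρ d b2 s m p) (hb : b2 ∈ G) :
    ∀ n ∈ o, ∃ ξ ∈ mu, app s (ZFSet.pair n ξ) ∈ G := by
  intro n hn
  obtain ⟨-, wmem, wup, -⟩ := hWH M B G k hB hc hG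
  have hpM : M (pos B) := hWF.2.2.1.1 M k (fun _ => B) (in_const hB)
  have hiM : M (incl B) := hWF.2.2.2.1.1 M k (fun _ => B) (in_const hB)
  have hnM : M n := k.trans _ ho _ hn
  have hR : Dfb ZFm (fun _ v => ∃ ξ ∈ v 1, v 0 ⊆ app (v 2) (ZFSet.pair (v 3) ξ)) :=
    (Dfb.bex (R := fun _ v => v 1 ⊆ app (v 3) (ZFSet.pair (v 4) (v 0))) ktr_zfm (Tm.var 1)
      (Dfb.subset (Tm.var 1) (Tm.app (Tm.var 3) (Tm.pair (Tm.var 4) (Tm.var 0))))).congr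
      fun _ _ _ _ => Iff.rfl
  have hD1 : M ((pos B).sep fun x => ∃ ξ ∈ mu, x ⊆ app s (ZFSet.pair n ξ)) :=
    (Tm.sep hR (f := fun _ v => v 3) (Tm.var 3)).1 M k
      (cons mu (cons s (cons n (fun _ => pos B))))
      (((in_const hpM).cons hnM).cons hs |>.cons hmu)
  obtain ⟨x, hxG, hxD, -⟩ := hFE M (pos B) (incl B) G _ b2 k hpM hiM hpo hG hD1 hb (by
    intro q hq
    obtain ⟨hq1, hq2, hq3⟩ := pair_mem_incl.1 hq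
    obtain ⟨hqB, hq0⟩ := mem_pos.1 hq1
    obtain ⟨ξ, hξ, h0⟩ := hD.sup n hn q hqB hq0 hq3
    have hsB : app s (ZFSet.pair n ξ) ∈ B :=
      app_mem hD.fs (ZFSet.pair_mem_prod.2 ⟨hn, hξ⟩)
    have hx1 : q ∩ app s (ZFSet.pair n ξ) ∈ pos B := mem_pos.2 ⟨hc.inter _ hqB _ hsB, h0⟩
    refine ⟨q ∩ app s (ZFSet.pair n ξ), ZFSet.mem_sep.2 ⟨hx1, ξ, hξ, ?_⟩, ?_⟩
    · intro z hz
      exact (ZFSet.mem_inter.1 hz).2
    · refine pair_mem_incl.2 ⟨hx1, hq1, ?_⟩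
      intro z hz
      exact (ZFSet.mem_inter.1 hz).1)
  obtain ⟨-, ξ, hξ, hx⟩ := ZFSet.mem_sep.1 hxD
  refine ⟨ξ, hξ, wup x hxG _ ?_ hx⟩
  exact app_mem hD.fs (ZFSet.pair_mem_prod.2 ⟨hn, hξ⟩)

end

/-- the filter in the extension -/
theorem exists_fil {M W : V → Prop} {B G o mu ρ d b2 s m p c r e : V} (hWH : T_WH)
    (k : ZFm M) (hB : M B) (hc : CBAr M B) (hG : Gen M (pos B) (incl B) G)
    (kW : ZFm W) (ho : W o) (hmu : W mu) (hs : W s) (hGW : W G) (he : W e) (hcW : W c)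
    (hrW : W r) (hpo : IsPo c r) (hon : Onto e mu c)
    (hρ : ZFSet.IsFunc (ZFSet.prod mu mu) B ρ)
    (hrr : ∀ ξ ∈ mu, ∀ η ∈ mu, app ρ (ZFSet.pair ξ η) ∈ G ↔
      ZFSet.pair (app e ξ) (app e η) ∈ r)
    (hD : DirS o B mu ρ d b2 s m p) (hd : ZFSet.IsFunc (ZFSet.prod o mu) B d)
    (hex : ∀ n ∈ o, ∃ ξ ∈ mu, app s (ZFSet.pair n ξ) ∈ G) (hne : o.Nonempty) :
    ∃ F, W F ∧ IsFil c r F ∧ ∀ i ∈ o, ∃ ξ ∈ mu, app d (ZFSet.pair i ξ) ∈ G ∧ app e ξ ∈ F := by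
  obtain ⟨wint, wmem, wup, -⟩ := hWH M B G k hB hc hG
  have hR : Dfb ZFm (fun _ v => ∃ n ∈ v 1, ∃ ξ ∈ v 2, app (v 3) (ZFSet.pair n ξ) ∈ v 4 ∧
      ZFSet.pair (app (v 5) ξ) (v 0) ∈ v 6) := by
    refine (Dfb.bex (R := fun _ v => ∃ ξ ∈ v 3, app (v 4) (ZFSet.pair (v 0) ξ) ∈ v 5 ∧
      ZFSet.pair (app (v 6) ξ) (v 1) ∈ v 7) ktr_zfm (Tm.var 1) ?_).congr
      fun _ _ _ _ => Iff.rfl
    refine (Dfb.bex (R := fun _ v => app (v 5) (ZFSet.pair (v 1) (v 0)) ∈ v 6 ∧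
      ZFSet.pair (app (v 7) (v 0)) (v 2) ∈ v 8) ktr_zfm (Tm.var 3) ?_).congr
      fun _ _ _ _ => Iff.rfl
    exact (Dfb.mem (Tm.app (Tm.var 5) (Tm.pair (Tm.var 1) (Tm.var 0))) (Tm.var 6)).and
      (Dfb.pairMem (Tm.app (Tm.var 7) (Tm.var 0)) (Tm.var 2) (Tm.var 8))
  refine ⟨c.sep fun y => ∃ n ∈ o, ∃ ξ ∈ mu, app s (ZFSet.pair n ξ) ∈ G ∧
    ZFSet.pair (app e ξ) y ∈ r, ?_, ?_, ?_⟩
  · exact (Tm.sep hR (f := fun _ v => v 6) (Tm.var 6)).1 W kW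
      (cons o (cons mu (cons s (cons G (cons e (cons r (fun _ => c)))))))
      ((((((in_const hcW).cons hrW).cons he).cons hGW).cons hs).cons hmu |>.cons ho)
  · refine ⟨fun y hy => (ZFSet.mem_sep.1 hy).1, ?_, ?_, ?_⟩
    · obtain ⟨n, hn⟩ := hne
      obtain ⟨ξ, hξ, h⟩ := hex n hn
      have hc1 : app e ξ ∈ c := app_mem hon.1 hξ
      exact ⟨app e ξ, ZFSet.mem_sep.2 ⟨hc1, n, hn, ξ, hξ, h, hpo.refl _ hc1⟩⟩
    · intro y hy q hq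
      obtain ⟨-, n, hn, ξ, hξ, h, h2⟩ := ZFSet.mem_sep.1 hy
      obtain ⟨a, ha, a', ha', haa⟩ := hpo.sub _ hq
      obtain ⟨rfl, rfl⟩ := ZFSet.pair_inj.1 haa
      exact ZFSet.mem_sep.2 ⟨ha', n, hn, ξ, hξ, h, hpo.trans _ _ _ h2 hq⟩
    · intro y hy y' hy'
      obtain ⟨-, n, hn, ξ, hξ, h, h2⟩ := ZFSet.mem_sep.1 hy
      obtain ⟨-, l, hl, η, hη, h', h2'⟩ := ZFSet.mem_sep.1 hy'
      have hk : app p (ZFSet.pair n l) ∈ o :=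
        app_mem hD.fp (ZFSet.pair_mem_prod.2 ⟨hn, hl⟩)
      obtain ⟨ζ, hζ, h3⟩ := hex _ hk
      have hc1 : app e ζ ∈ c := app_mem hon.1 hζ
      have g1 : app ρ (ZFSet.pair ζ ξ) ∈ G :=
        wup _ (wint _ h3 _ h) _ (app_mem hρ (ZFSet.pair_mem_prod.2 ⟨hζ, hξ⟩))
          (hD.dir n hn l hl ζ hζ ξ hξ).1
      have g2 : app ρ (ZFSet.pair ζ η) ∈ G :=
        wup _ (wint _ h3 _ h') _ (app_mem hρ (ZFSet.pair_mem_prod.2 ⟨hζ, hη⟩))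
          (hD.dir n hn l hl ζ hζ η hη).2
      refine ⟨app e ζ, ZFSet.mem_sep.2 ⟨hc1, _, hk, ζ, hζ, h3, hpo.refl _ hc1⟩, ?_, ?_⟩
      · exact hpo.trans _ _ _ ((hrr ζ hζ ξ hξ).1 g1) h2
      · exact hpo.trans _ _ _ ((hrr ζ hζ η hη).1 g2) h2'
  · intro i hi
    have hk : app m i ∈ o := app_mem hD.fm hi
    obtain ⟨ζ, hζ, h3⟩ := hex _ hk
    have hc1 : app e ζ ∈ c := app_mem hon.1 hζ
    refine ⟨ζ, hζ, ?_, ZFSet.mem_sep.2 ⟨hc1, _, hk, ζ, hζ, h3, hpo.refl _ hc1⟩⟩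
    exact wup _ h3 _ (app_mem hd (ZFSet.pair_mem_prod.2 ⟨hi, hζ⟩)) (hD.mts i hi ζ hζ)

/-- the forcing axiom in the extension, from the axiom with names in `M` -/
theorem core (P : (V → Prop) → V → V → Prop) (hQE : T_QE) (hQF : T_QF) (hWF : T_WF) (hWG : T_WG) (hWH : T_WH) (hWL : T_WL)
    (hFE : T_FE) (hFI : T_FI) (hFJ : T_FJ) (hFL : T_FL) {M : V → Prop} {B G : V}
    {α : Ordinal.{0}} (kM : ZFCm M) (hctb : {x | M x}.Countable) (hB : M B) (hc : CBAr M B)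
    (hne : B ≠ {∅}) (hG : Gen M (pos B) (incl B) G) (hω : IsOmega1 M α)
    (hNB : NBs M α.toZFSet B)
    (hFA : ∀ mu, M mu → IsOrd mu → ∀ ρ, M ρ → BPre B mu ρ →
      ∀ c r e : V, Ext M G c → Ext M G r → Ext M G e → IsPo c r → Onto e mu c →
      (∀ ξ ∈ mu, ∀ η ∈ mu, app ρ (ZFSet.pair ξ η) ∈ G ↔ ZFSet.pair (app e ξ) (app e η) ∈ r) →
      P (Ext M G) c r → ∃ b ∈ G, FA2s M α.toZFSet B mu ρ b) :
    SCFAp P (Ext M G) := by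
  have k : ZFm M := kM.toZFm
  have hpo : IsPo (pos B) (incl B) := hWG.2.2.1 M B hc hne
  have hpM : M (pos B) := hWF.2.2.1.1 M k (fun _ => B) (in_const hB)
  have hiM : M (incl B) := hWF.2.2.2.1.1 M k (fun _ => B) (in_const hB)
  have kW : ZFCm (Ext M G) := hFJ M (pos B) (incl B) G kM hpM hiM hpo hG
  have kw : ZFm (Ext M G) := kW.toZFm
  obtain ⟨-, hMW, hGW⟩ := hFI M (pos B) (incl B) G k hpM hiM hpo hG
  have hωW : IsOmega1 (Ext M G) α := hWL M α B G kM hctb hB hc hne hω hNB hG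
  intro c r hcW hrW hpocr hsc o D ho hDW hdense
  have hoα : o = α := by
    rcases lt_trichotomy o α with h | h | h
    · exact absurd (hωW.2.2 o h) ho.2.1
    · exact h
    · exact absurd (ho.2.2 α h) hωW.2.1
  subst hoα
  have hoM : M o.toZFSet := hω.1
  obtain ⟨μ0, e, heW, hon⟩ := kW.wo c hcW
  -- the ordinal is in `M`
  have hdm : dm e = μ0.toZFSet := by
    ext x
    rw [mem_dm]
    constructor
    · rintro ⟨y, hy⟩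
      exact (ZFSet.pair_mem_prod.1 (hon.1.1 hy)).1
    · intro hx
      exact ⟨_, pair_app_mem hon.1 hx⟩
  have hmuW : Ext M G μ0.toZFSet := by
    rw [← hdm]
    exact (Tm.dm (Tm.var 0)).1 _ kw (fun _ => e) (in_const heW)
  have hmu : M μ0.toZFSet := hFL.2.2 M G μ0 k hmuW
  have hmo : IsOrd μ0.toZFSet := ⟨μ0, rfl⟩
  generalize μ0.toZFSet = mu at hon hmuW hmu hmo
  -- the preorder of `mu`
  have hrrT : Tm ZFm (fun _ v => (ZFSet.prod (v 0) (v 0)).sep fun z =>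
      ZFSet.pair (app (v 1) (fst z)) (app (v 1) (snd z)) ∈ v 2) :=
    Tm.sep (R := fun _ v => ZFSet.pair (app (v 2) (fst (v 0))) (app (v 2) (snd (v 0))) ∈ v 3)
      (Dfb.pairMem (Tm.app (Tm.var 2) (Tm.fst (Tm.var 0))) (Tm.app (Tm.var 2) (Tm.snd (Tm.var 0)))
        (Tm.var 3)) (Tm.prod (Tm.var 0) (Tm.var 0))
  obtain ⟨rr, hrrdef⟩ : ∃ rr, rr = (ZFSet.prod mu mu).sep fun z =>
      ZFSet.pair (app e (fst z)) (app e (snd z)) ∈ r := ⟨_, rfl⟩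
  have hrrW : Ext M G rr := by
    rw [hrrdef]
    exact hrrT.1 _ kw (cons mu (cons e (fun _ => r))) (((in_const hrW).cons heW).cons hmuW)
  have hrrm : ∀ ξ η, ZFSet.pair ξ η ∈ rr ↔ ξ ∈ mu ∧ η ∈ mu ∧
      ZFSet.pair (app e ξ) (app e η) ∈ r := by
    intro ξ η
    rw [hrrdef, ZFSet.mem_sep, ZFSet.pair_mem_prod, fst_pair, snd_pair, and_assoc]
  have hmune : mu.Nonempty := by
    obtain ⟨y, hy⟩ := hpocr.ne
    obtain ⟨a, ha, -⟩ := hon.2 y hy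
    exact ⟨a, ha⟩
  have hporr : IsPo mu rr := by
    refine ⟨hmune, ?_, ?_, ?_⟩
    · intro z hz
      rw [hrrdef] at hz
      exact ZFSet.mem_prod.1 (ZFSet.mem_sep.1 hz).1
    · intro p hp
      exact (hrrm p p).2 ⟨hp, hp, hpocr.refl _ (app_mem hon.1 hp)⟩
    · intro p q s hpq hqs
      obtain ⟨h1, h2, h3⟩ := (hrrm p q).1 hpq
      obtain ⟨-, h5, h6⟩ := (hrrm q s).1 hqs
      exact (hrrm p s).2 ⟨h1, h5, hpocr.trans _ _ _ h3 h6⟩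
  obtain ⟨ρ, hρM, hBP, hrt⟩ := hQE M B G mu rr k hctb hB hc hne hG hmu hrrW hporr
  have hrtm : ∀ ξ η, ZFSet.pair ξ η ∈ rt mu ρ G ↔ ξ ∈ mu ∧ η ∈ mu ∧
      app ρ (ZFSet.pair ξ η) ∈ G := by
    intro ξ η
    unfold rt
    rw [ZFSet.mem_sep, ZFSet.pair_mem_prod, and_assoc]
  have hrr : ∀ ξ ∈ mu, ∀ η ∈ mu, app ρ (ZFSet.pair ξ η) ∈ G ↔
      ZFSet.pair (app e ξ) (app e η) ∈ r := by
    intro ξ hξ η hη
    have h1 := hrtm ξ η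
    rw [hrt, hrrm ξ η] at h1
    constructor
    · intro h
      exact (h1.2 ⟨hξ, hη, h⟩).2.2
    · intro h
      exact (h1.1 ⟨hξ, hη, h⟩).2.2
  obtain ⟨b, hbG, hFAb⟩ := hFA mu hmu hmo ρ hρM hBP c r e hcW hrW heW hpocr hon hrr hsc
  -- the dense subsets of `mu`
  have hD1T : Tm ZFm (fun _ v => resS (v 0) fun i => (v 1).sep fun ξ =>
      app (v 2) ξ ∈ app (v 3) i) :=
    Tm.resS (f := fun _ v => v 0) (g := fun _ v => (v 2).sep fun ξ =>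
      app (v 3) ξ ∈ app (v 4) (v 0)) (Tm.var 0)
      (Tm.sep (R := fun _ v => app (v 4) (v 0) ∈ app (v 5) (v 1)) (f := fun _ v => v 2)
        (Dfb.mem (Tm.app (Tm.var 4) (Tm.var 0)) (Tm.app (Tm.var 5) (Tm.var 1))) (Tm.var 2))
  obtain ⟨D1, hD1def⟩ : ∃ D1, D1 = resS o.toZFSet fun i => mu.sep fun ξ =>
      app e ξ ∈ app D i := ⟨_, rfl⟩
  have hD1W : Ext M G D1 := by
    rw [hD1def]
    exact hD1T.1 _ kw (cons o.toZFSet (cons mu (cons e (fun _ => D))))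
      ((((in_const hDW).cons heW).cons hmuW).cons ho.1)
  have hD1m : ∀ i ∈ o.toZFSet, ∀ ξ, ξ ∈ app D1 i ↔ ξ ∈ mu ∧ app e ξ ∈ app D i := by
    intro i hi ξ
    rw [hD1def, app_resS hi, ZFSet.mem_sep]
  have hdense1 : ∀ i ∈ o.toZFSet, IsDense mu (rt mu ρ G) (app D1 i) := by
    intro i hi
    obtain ⟨i0, hi0, rfl⟩ := Ordinal.mem_toZFSet_iff.1 hi
    obtain ⟨hd1, hd2⟩ := hdense i0 hi0
    refine ⟨fun ξ hξ => ((hD1m _ hi ξ).1 hξ).1, ?_⟩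
    intro p hp
    obtain ⟨y, hy, hyp⟩ := hd2 (app e p) (app_mem hon.1 hp)
    obtain ⟨a, ha, hay⟩ := hon.2 y (hd1 hy)
    have hae : app e a = y := app_eq (svl_of_isFunc hon.1) hay
    refine ⟨a, (hD1m _ hi a).2 ⟨ha, by rw [hae]; exact hy⟩, (hrtm a p).2 ⟨ha, hp, ?_⟩⟩
    exact (hrr a ha p hp).2 (by rw [hae]; exact hyp)
  obtain ⟨d, hdM, hDns, hdiff⟩ := hQF M B G o.toZFSet mu ρ D1 k hctb hB hc hne hG hoM hmu hρM
    hBP hD1W hdense1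
  -- a condition in the generic filter which decides a directed system
  have hEM : M ((pos B).sep fun b2 => ∃ s, M s ∧ ∃ m, M m ∧ ∃ p, M p ∧
      DirS o.toZFSet B mu ρ d b2 s m p) :=
    (Tm.sep dfb_dirS.ex.ex.ex (f := fun _ v => v 5) (Tm.var 5)).1 M k
      (cons o.toZFSet (cons B (cons mu (cons ρ (cons d (fun _ => pos B))))))
      ((((((in_const hpM).cons hdM).cons hρM).cons hmu).cons hB).cons hoM)
  obtain ⟨b2, hb2G, hb2E, -⟩ := hFE M (pos B) (incl B) G _ b k hpM hiM hpo hG hEM hbG (by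
    intro q hq
    obtain ⟨hq1, hq2, hq3⟩ := pair_mem_incl.1 hq
    obtain ⟨hqB, hq0⟩ := mem_pos.1 hq1
    obtain ⟨b2, hb2B, hb20, hb2q, s, hs, m, hm, p, hp, hD⟩ := hFAb d hdM hDns q hqB hq0 hq3
    have h1 : b2 ∈ pos B := mem_pos.2 ⟨hb2B, hb20⟩
    exact ⟨b2, ZFSet.mem_sep.2 ⟨h1, s, hs, m, hm, p, hp, hD⟩, pair_mem_incl.2 ⟨h1, hq1, hb2q⟩⟩)
  obtain ⟨-, s, hs, m, hm, p, hp, hD⟩ := ZFSet.mem_sep.1 hb2E
  have hex := exists_xi hFE hWH hWF k hB hc hpo hG hmu hs hoM hD hb2G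
  have hone : (o.toZFSet).Nonempty := by
    rcases ZFSet.eq_empty_or_nonempty o.toZFSet with h | h
    · exact absurd (Or.inl h) hω.2.1
    · exact h
  obtain ⟨F, hFW, hF1, hF2⟩ := exists_fil hWH k hB hc hG kw (hMW _ hoM) (hMW _ hmu) (hMW _ hs)
    hGW heW hcW hrW hpocr hon hBP.func hrr hD hDns.1 hex hone
  refine ⟨F, hFW, hF1, fun i hi => ?_⟩
  have hi' : i.toZFSet ∈ o.toZFSet := Ordinal.mem_toZFSet_iff.2 ⟨i, hi, rfl⟩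
  obtain ⟨ξ, hξ, h1, h2⟩ := hF2 _ hi'
  exact ⟨app e ξ, h2, ((hD1m _ hi' ξ).1 ((hdiff _ hi' ξ hξ).2 h1)).2⟩

/-- W3 for the class `P` -/
theorem w3p (P : (V → Prop) → V → V → Prop) (hCL : T_CLp P) (hQD : T_QD) (hQE : T_QE) (hQF : T_QF) (hQH : T_QH) (hQI : T_QI)
    (hXN : T_XN) (hWA : T_WA) (hWC : T_WC) (hWE : T_WE) (hWF : T_WF) (hWG : T_WG) (hWH : T_WH)
    (hWJ : T_WJ) (hWK : T_WK) (hWL : T_WL) (hFE : T_FE) (hFI : T_FI) (hFJ : T_FJ)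
    (hFL : T_FL) : T_W3p P := by
  intro A hgood hfax hne
  obtain ⟨ι, hι, R, hR, hcl⟩ := hCL A hgood hne
  refine ⟨Option ι, inferInstance, fun o => match o with
    | none => fun v => v 0 = w1
    | some n => R n, ?_, ?_⟩
  · rintro (_ | n)
    · exact ⟨1, fun v w h => by
        show v 0 = w1 ↔ w 0 = w1
        rw [h 0 one_pos]⟩
    · exact hR n
  intro M j hM hSk B hB hjB G hG
  rw [← ext_eq_extS]
  obtain ⟨kZ, hinj, -, -, -, hom⟩ := hWE M j hM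
  obtain ⟨o, hoM, hjo⟩ : ∃ o ∈ M, j o = w1 := hSk none (fun _ => B) (fun _ => hB) ⟨w1, rfl⟩
  obtain ⟨α, rfl, hω⟩ := hom o hoM hjo
  have k : ZFm (· ∈ M) := kZ.toZFCm.toZFm
  have kA : ZFm Al := hWC.toZFCm.toZFm
  obtain ⟨hTR, hTF⟩ := hWA ZFm (· ∈ M) Al j hM.elem k kA
  have hc : CBAr (· ∈ M) B := by
    refine (hTR _ hWF.2.1 (fun _ => B) (fun _ => hB)).2 ?_
    show CBAr Al (j B)
    rw [hjB]
    exact (hWG.1 A.B).1 A.cba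
  have hne' : B ≠ {∅} := by
    intro h
    have h1 : j {∅} = {∅} := hTF _ (Tm.sing Tm.empty) (fun _ => B) (fun _ => hB)
    apply hne
    rw [← hjB, h, h1]
  have hNB : NBs (· ∈ M) α.toZFSet B := by
    refine (hTR _ hWJ.1 (cons α.toZFSet (fun _ => B)) (In.cons (fun _ => hB) hoM)).2 ?_
    show NBs Al (j α.toZFSet) (j B)
    rw [hjB, hjo]
    exact (hWK A).1 (hXN A hgood)
  refine core P hQE hQF hWF hWG hWH hWL hFE hFI hFJ hFL kZ.toZFCm hM.ctb hB hc hne' hG hω hNB ?_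
  intro mu hmu hmo ρ hρ hBP c r e hcW hrW heW hpo hon hrr hsc
  obtain ⟨b, hbG, hgq⟩ := hcl M j hM (fun n => hSk (some n)) B hB hjB G hG mu hmu hmo ρ hρ hBP
    c r e hcW hrW heW hpo hon hrr hsc
  refine ⟨b, hbG, ?_⟩
  have hbB : b ∈ B := ((hWH _ B G k hB hc hG).2.1 b hbG).1
  have hbM : b ∈ M := k.trans _ hB _ hbB
  have hBP' : BPre A.B (j mu) (j ρ) := by
    have h1 : BPre (j B) (j mu) (j ρ) :=
      (hTR _ hQH.2.2.1 (cons B (cons mu (fun _ => ρ)))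
        (In.cons (In.cons (fun _ => hρ) hmu) hB)).1 hBP
    rwa [hjB] at h1
  have hjb : j b ∈ A.B := by
    rw [← hjB]
    exact (hinj b hbM B hB).2.2 hbB
  have h2 : FA2s Al w1 A.B (j mu) (j ρ) (j b) :=
    hQI A (hQD A hne hfax) (j mu) (j ρ) (j b) hBP' hgq hjb
  refine (hTR _ hQH.2.2.2.2 (cons α.toZFSet (cons B (cons mu (cons ρ (fun _ => b)))))
    (In.cons (In.cons (In.cons (In.cons (fun _ => hbM) hρ) hmu) hB) hoM)).2 ?_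
  show FA2s Al (j α.toZFSet) (j B) (j mu) (j ρ) (j b)
  rw [hjo, hjB]
  exact h2

/-- W3 -/
theorem w3 (hCL : T_CL) (hQD : T_QD) (hQE : T_QE) (hQF : T_QF) (hQH : T_QH) (hQI : T_QI)
    (hXN : T_XN) (hWA : T_WA) (hWC : T_WC) (hWE : T_WE) (hWF : T_WF) (hWG : T_WG) (hWH : T_WH)
    (hWJ : T_WJ) (hWK : T_WK) (hWL : T_WL) (hFE : T_FE) (hFI : T_FI) (hFJ : T_FJ)
    (hFL : T_FL) : T_W3 :=
  w3p Subcomplete (clp_iff.2 hCL) hQD hQE hQF hQH hQI hXN hWA hWC hWE hWF hWG hWH hWJ hWK hWL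
    hFE hFI hFJ hFL

end SF.H60
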